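import Pool.Agent.TWB.Main

/-!
MP_57632f_nt, partial result: the block complexities of `π` in two bases (and of `π` and a
Möbius image of `π`).
-/

set_option autoImplicit false

namespace Pool.Agent.Helper78.HandIn.TwoBases

/-- the `i`-th digit of the real number `x` after the point (`i ≥ 1`) in base `b` -/
noncomputable def digit (b : ℕ) (x : ℝ) (i : ℕ) : ℤ := ⌊x * (b : ℝ) ^ i⌋ % b

/-- the number of different blocks of `n` consecutive digits after the point in the base `b`
expansion of `x` -/
noncomputable def complexity (b : ℕ) (x : ℝ) (n : ℕ) : ℕ :=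
  {w : Fin n → ℤ | ∃ m : ℕ, ∀ j : Fin n, w j = digit b x (m + 1 + j)}.ncard

/-- Let `r, s ≥ 2` and `a d - b c ≠ 0`, and suppose that `c = 0` if and only if `r` and `s` are
multiplicatively independent.  Then there is `δ > 0` such that for all large `n` the expansion of
`π` in base `r` and the expansion of `(a π + b) / (c π + d)` in base `s` have together at least
`(2 + δ) n` different blocks of `n` consecutive digits. -/
theorem result (r s : ℕ) (a b c d : ℤ) (hr : 2 ≤ r) (hs : 2 ≤ s) (hdet : a * d - b * c ≠ 0)
    (hrs : c = 0 ↔ ∀ i j : ℕ, 0 < i → r ^ i ≠ s ^ j) :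
    ∃ δ : ℝ, 0 < δ ∧ ∀ᶠ n : ℕ in Filter.atTop,
      (2 + δ) * n ≤
        complexity r Real.pi n + complexity s ((a * Real.pi + b) / (c * Real.pi + d)) n :=
  TWB.main r s a b c d hr hs hdet hrs

end Pool.Agent.Helper78.HandIn.TwoBases
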